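import Pool.Agent.MP_77f003_co.H49.USpec

/-!
The tracks of an invariant nested family of finite cuts have bounded size: every track is pinned by
one of its pairs together with a nearby point.
-/

namespace Pool.Agent.MP_77f003_co.H49

open SimpleGraph Filter

variable {V : Type} {G : SimpleGraph V} {L : ℕ}

/-- The two sets agree near all pairs of `τ`. -/
def ScatterAg (G : SimpleGraph V) (L : ℕ) (B B' : Set V) (τ : Set (V × V)) : Prop :=
  ∀ q ∈ τ, ∀ w, G.dist w q.1 ≤ L → G.dist w q.2 ≤ L → (w ∈ B ↔ w ∈ B')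

/-- The track of `B` through `p` is pinned by `p` and `w`. -/
def ScatterPin (G : SimpleGraph V) (L : ℕ) (N : Set (Set V)) (p : V × V) (w : V) (B : Set V) :
    Prop :=
  B ∈ N ∧ p ∈ cb G L B ∧ w ∉ B ∧ G.dist w p.1 ≤ L ∧ G.dist w p.2 ≤ L ∧
    ∀ B' ∈ N, p.1 ∈ B' → p.2 ∉ B' → w ∉ B' → ∃ B'' ∈ N, B' ⊆ B'' ∧ ScatterAg G L B B'' (trk G L B p)

theorem scatter_self (B : Set V) (p : V × V) : p ∈ trk G L B p := Relation.ReflTransGen.refl

theorem scatter_sub {B : Set V} {p : V × V} (hp : p ∈ cb G L B) : trk G L B p ⊆ cb G L B := by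
  intro q hq
  induction hq with
  | refl => exact hp
  | tail _ h _ => exact h.2.1

theorem scatter_symm {B : Set V} {p q : V × V} (h : q ∈ trk G L B p) : p ∈ trk G L B q := by
  induction h with
  | refl => exact scatter_self _ _
  | tail _ h ih =>
    exact Relation.ReflTransGen.head ⟨h.2.1, h.1, h.2.2.imp
      (fun h => ⟨h.1.symm, by rw [dcomm]; exact h.2⟩)
      fun h => ⟨h.1.symm, by rw [dcomm]; exact h.2⟩⟩ ih

theorem scatter_eq {B : Set V} {p q : V × V} (h : q ∈ trk G L B p) : trk G L B q = trk G L B p :=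
  Set.ext fun _ => ⟨fun h' => Relation.ReflTransGen.trans h h',
    fun h' => Relation.ReflTransGen.trans (scatter_symm h) h'⟩

theorem ScatterAg.cb {B B' : Set V} {τ : Set (V × V)} (h : ScatterAg G L B B' τ) {q : V × V}
    (hq : q ∈ τ) (hB : q ∈ cb G L B) : q ∈ cb G L B' :=
  ⟨(h q hq q.1 (by simp) hB.2.2).1 hB.1,
    fun h' => hB.2.1 ((h q hq q.2 (by rw [dcomm]; exact hB.2.2) (by simp)).2 h'), hB.2.2⟩

theorem ScatterAg.eq {B B' : Set V} {p : V × V} (hp : p ∈ H49.cb G L B)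
    (h : ScatterAg G L B B' (trk G L B p)) : trk G L B' p = trk G L B p := by
  refine Set.ext fun q => ⟨fun hq => ?_, fun hq => ?_⟩
  · induction hq with
    | refl => exact scatter_self _ _
    | @tail a b _ hab ih =>
      have ha := scatter_sub hp ih
      refine Relation.ReflTransGen.tail ih ⟨ha, ?_, hab.2.2⟩
      obtain ⟨-, ⟨h1, h2, h3⟩, ⟨e, h4⟩ | ⟨e, h4⟩⟩ := hab
      · refine ⟨e ▸ ha.1, fun h' => h2 ((h a ih b.2 ?_ ?_).1 h'), h3⟩
        · rw [e, dcomm]; exact h3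
        · rw [dcomm]; exact h4
      · refine ⟨(h a ih b.1 ?_ ?_).2 h1, e ▸ ha.2.1, h3⟩
        · rw [dcomm]; exact h4
        · rw [e]; exact h3
  · induction hq with
    | refl => exact scatter_self _ _
    | @tail a b ha hab ih =>
      exact Relation.ReflTransGen.tail ih ⟨h.cb ha hab.1,
        h.cb (Relation.ReflTransGen.tail ha hab) hab.2.1, hab.2.2⟩

theorem scatter_chain {N : Set (Set V)} (hN : NFam G N) {A B : Set V} (hA : A ∈ N) (hB : B ∈ N)
    {x y : V} (h1 : x ∈ A) (h2 : y ∉ A) (h3 : x ∈ B) (h4 : y ∉ B) : A ⊆ B ∨ B ⊆ A := by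
  rcases hN.nest A hA B hB with h | h | h | h
  exacts [Or.inl h, absurd h3 (h h1), absurd (h h2) h4, Or.inr (Set.compl_subset_compl.1 h)]

theorem ScatterPin.eq {N : Set (Set V)} {p : V × V} {w : V} {A B : Set V}
    (hA : ScatterPin G L N p w A) (hB : ScatterPin G L N p w B) : trk G L A p = trk G L B p := by
  obtain ⟨a1, a2, a3, a4, a5, a6⟩ := hA
  obtain ⟨-, b2, b3, -, -, b6⟩ := hB
  obtain ⟨B', h1, h2, h3⟩ := b6 A a1 a2.1 a2.2.1 a3
  have h4 := h3.cb (scatter_self _ _) b2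
  obtain ⟨A', -, h5, h6⟩ := a6 B' h1 h4.1 h4.2.1
    fun h => b3 ((h3 p (scatter_self _ _) w a4 a5).2 h)
  rw [← h3.eq b2]
  exact (ScatterAg.eq a2 fun q hq z z1 z2 =>
    ⟨fun h => h2 h, fun h => (h6 q hq z z1 z2).2 (h5 h)⟩).symm

variable [Fact G.Connected]

theorem scatter_map (φ : G ≃g G) {A B : Set V} (h : ∀ x, x ∈ A ↔ φ x ∈ B) {p q : V × V}
    (hq : q ∈ trk G L A p) : Prod.map φ φ q ∈ trk G L B (Prod.map φ φ p) := by
  have key : ∀ a ∈ cb G L A, Prod.map φ φ a ∈ cb G L B := fun a ha =>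
    ⟨(h _).1 ha.1, fun h' => ha.2.1 ((h _).2 h'), (dist_iso φ _ _).trans_le ha.2.2⟩
  induction hq with
  | refl => exact scatter_self _ _
  | tail _ hab ih =>
    exact Relation.ReflTransGen.tail ih ⟨key _ hab.1, key _ hab.2.1, hab.2.2.imp
      (fun h => ⟨congrArg φ h.1, (dist_iso φ _ _).trans_le h.2⟩)
      fun h => ⟨congrArg φ h.1, (dist_iso φ _ _).trans_le h.2⟩⟩

theorem ScatterPin.pre {N : Set (Set V)} (hN : NFam G N) (φ : G ≃g G) {p : V × V} {w : V}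
    {B : Set V} (h : ScatterPin G L N (Prod.map φ φ p) (φ w) B) :
    ScatterPin G L N p w (φ ⁻¹' B) := by
  obtain ⟨h1, h2, h3, h4, h5, h6⟩ := h
  refine ⟨hN.inv B h1 φ, by rw [cb_pre]; exact h2, h3, (dist_iso φ _ _).symm.trans_le h4,
    (dist_iso φ _ _).symm.trans_le h5, fun B' b1 b2 b3 b4 => ?_⟩
  obtain ⟨B'', c1, c2, c3⟩ := h6 (φ.symm ⁻¹' B') (hN.inv B' b1 _) (by simpa using b2)
    (by simpa using b3) (by simpa using b4)
  exact ⟨φ ⁻¹' B'', hN.inv B'' c1 φ, fun x hx => c2 (by simpa using hx), fun q hq z z1 z2 =>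
    c3 _ (scatter_map φ (fun _ => Iff.rfl) hq) (φ z) ((dist_iso φ _ _).trans_le z1)
      ((dist_iso φ _ _).trans_le z2)⟩

variable [G.LocallyFinite]

theorem scatter_pin {N : Set (Set V)} (hN : NFam G N) {B : Set V} (hB : B ∈ N)
    (hf : (cb G L B).Finite) {e : V × V} (he : e ∈ cb G L B) :
    ∃ p ∈ trk G L B e, ∃ w, ScatterPin G L N p w B := by
  by_contra hc
  let S : Set ((V × V) × V) :=
    {a | a.1 ∈ trk G L B e ∧ a.2 ∉ B ∧ G.dist a.2 a.1.1 ≤ L ∧ G.dist a.2 a.1.2 ≤ L}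
  have hS : S.Finite := ((hf.subset (scatter_sub he)).biUnion fun p _ =>
    (Set.finite_singleton p).prod (finite_ball (G := G) p.1 L)).subset fun a ha =>
      Set.mem_biUnion ha.1 ⟨rfl, by have := ha.2.2.1; rwa [dcomm] at this⟩
  have h1 : ∀ a : (V × V) × V, ∃ B', a ∈ S → B' ∈ N ∧ a.1.1 ∈ B' ∧ a.1.2 ∉ B' ∧ a.2 ∉ B' ∧
      ∀ B'' ∈ N, B' ⊆ B'' → ¬ ScatterAg G L B B'' (trk G L B e) := fun a => by
    by_contra h
    simp only [not_exists, Classical.not_imp] at h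
    obtain ⟨a1, a2, a3, a4⟩ := (h ∅).1
    refine hc ⟨a.1, a1, a.2, hB, scatter_sub he a1, a2, a3, a4, fun B' b1 b2 b3 b4 => ?_⟩
    by_contra h'
    refine (h B').2 ⟨b1, b2, b3, b4, fun B'' c1 c2 c3 => h' ⟨B'', c1, c2, ?_⟩⟩
    rwa [scatter_eq a1]
  choose f hf using h1
  obtain ⟨a, ha, hmin⟩ := hS.exists_minimalFor f S
    ⟨(e, e.2), scatter_self _ _, he.2.1, by rw [dcomm]; exact he.2.2, by simp⟩
  obtain ⟨a1, a2, a3, -, a5⟩ := hf a ha
  have h0 := scatter_sub he ha.1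
  have h2 : B ⊆ f a := (scatter_chain hN hB a1 h0.1 h0.2.1 a2 a3).resolve_right fun h =>
    a5 B hB h fun _ _ _ _ _ => Iff.rfl
  have h3 : ∀ p ∈ trk G L B e, p.2 ∉ f a → ∀ w, G.dist w p.1 ≤ L → G.dist w p.2 ≤ L → w ∉ B →
      w ∉ f a := fun p hp hp' w w1 w2 w3 w4 => by
    have hw : (p, w) ∈ S := ⟨hp, w3, w1, w2⟩
    obtain ⟨b1, b2, b3, b4, -⟩ := hf _ hw
    exact b4 ((scatter_chain hN a1 b1 (h2 (scatter_sub he hp).1) hp' b2 b3).elim id
      (fun h => hmin hw h) w4)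
  have h4 : ∀ p ∈ trk G L B a.1, p.2 ∉ f a := fun p hp => by
    induction hp with
    | refl => exact a3
    | @tail b c hb hbc ih =>
      obtain ⟨-, ⟨-, c2, c3⟩, ⟨e', h⟩ | ⟨e', -⟩⟩ := hbc
      · refine h3 b (scatter_eq ha.1 ▸ hb) ih c.2 ?_ ?_ c2
        · rw [e', dcomm]; exact c3
        · rw [dcomm]; exact h
      · exact e' ▸ ih
  rw [scatter_eq ha.1] at h4
  exact a5 _ a1 subset_rfl fun q hq w w1 w2 =>
    ⟨fun h => h2 h, fun h => by_contra fun h' => h3 q hq (h4 q hq) w w1 w2 h' h⟩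

theorem scatterSpec : ScatterSpec := by
  intro V G _ _ N ht hN hf L
  obtain ⟨o⟩ := (Fact.out : G.Connected).nonempty
  have h1 : ∀ a : V × V, ∃ n : ℕ, ∀ B, ScatterPin G L N (o, a.1) a.2 B →
      (trk G L B (o, a.1)).encard ≤ n := fun a => by
    by_cases h : ∃ B, ScatterPin G L N (o, a.1) a.2 B
    · obtain ⟨B, hB⟩ := h
      have h2 := (finite_cb (hf B hB.1) L).subset (scatter_sub hB.2.1)
      exact ⟨_, fun B' hB' => by rw [hB'.eq hB]; exact h2.cast_ncard_eq.ge⟩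
    · exact ⟨0, fun B hB => absurd ⟨B, hB⟩ h⟩
  choose n hn using h1
  refine ⟨(ball G o L ×ˢ ball G o L).sup n, fun B hB e he => ?_⟩
  obtain ⟨⟨x, y⟩, hp, w, hw⟩ := scatter_pin hN hB (finite_cb (hf B hB) L) he
  obtain ⟨φ, rfl⟩ := ht o x
  obtain ⟨y, rfl⟩ := φ.surjective y
  obtain ⟨w, rfl⟩ := φ.surjective w
  have h2 := ScatterPin.pre hN φ (p := (o, y)) hw
  have h3 : trk G L B e ⊆ Prod.map φ φ '' trk G L (φ ⁻¹' B) (o, y) := fun q hq =>
    ⟨Prod.map φ.symm φ.symm q, by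
      have := scatter_map φ.symm (B := φ ⁻¹' B) (fun x => by simp) (scatter_eq hp ▸ hq)
      simpa using this, by simp [Prod.ext_iff]⟩
  refine (Set.encard_le_encard h3).trans ((Set.encard_image_le _ _).trans
    ((hn (y, w) _ h2).trans (Nat.cast_le.2 (Finset.le_sup (f := n) ?_))))
  refine Finset.mem_product.2 ⟨mem_ball.2 h2.2.1.2.2, mem_ball.2 ?_⟩
  rw [dcomm]
  exact h2.2.2.2.1

end Pool.Agent.MP_77f003_co.H49
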